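import Pool.Agent.W543.MO.Parts

/-!
# MO-SSREG: in a category whose pseudo-abelian hull is semisimple every morphism is regular
-/

set_option autoImplicit false

open CategoryTheory Pool.Agent.W543.MO

universe u v

namespace Pool.Agent.W494.MO

theorem reg_of_split {E : Type u} [Category.{v} E] [Abelian E]
    (h : ∀ {X Y : E} (f : X ⟶ Y), Mono f → ∃ g : Y ⟶ X, f ≫ g = 𝟙 X) {X Y : E} (f : X ⟶ Y) :
    ∃ g : Y ⟶ X, f ≫ g ≫ f = f := by
  obtain ⟨r, hr⟩ := h (Abelian.image.ι f) inferInstance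
  obtain ⟨s, hs⟩ := h (Limits.kernel.ι (Abelian.factorThruImage f)) inferInstance
  have h0 : Limits.kernel.ι (Abelian.factorThruImage f) ≫
      (𝟙 X - s ≫ Limits.kernel.ι (Abelian.factorThruImage f)) = 0 := by
    rw [Preadditive.comp_sub, Category.comp_id, ← Category.assoc, hs, Category.id_comp, sub_self]
  let t := Abelian.epiDesc (Abelian.factorThruImage f)
    (𝟙 X - s ≫ Limits.kernel.ι (Abelian.factorThruImage f)) h0
  have ht : Abelian.factorThruImage f ≫ t =
      𝟙 X - s ≫ Limits.kernel.ι (Abelian.factorThruImage f) := Abelian.comp_epiDesc _ _ _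
  have hte : t ≫ Abelian.factorThruImage f = 𝟙 _ := by
    rw [← cancel_epi (Abelian.factorThruImage f), ← Category.assoc, ht, Preadditive.sub_comp,
      Category.id_comp, Category.assoc, Limits.kernel.condition, Limits.comp_zero, sub_zero,
      Category.comp_id]
  refine ⟨r ≫ t, ?_⟩
  calc f ≫ (r ≫ t) ≫ f =
      (Abelian.factorThruImage f ≫ Abelian.image.ι f) ≫ (r ≫ t) ≫
        (Abelian.factorThruImage f ≫ Abelian.image.ι f) := by rw [Abelian.image.fac]
    _ = Abelian.factorThruImage f ≫ (Abelian.image.ι f ≫ r) ≫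
        (t ≫ Abelian.factorThruImage f) ≫ Abelian.image.ι f := by simp only [Category.assoc]
    _ = f := by rw [hr, hte, Category.id_comp, Category.id_comp, Abelian.image.fac]

theorem t_SSREG : SSREG_stmt := by
  intro 𝒟 _ _ hss X Y f
  obtain ⟨⟨hb, hk, hc, hi⟩, hm⟩ := hss
  have := hb
  have := hk
  have := hc
  have : ∀ {X Y : Idempotents.Karoubi (Mat_ 𝒟)} (f : X ⟶ Y),
      IsIso (Abelian.coimageImageComparison f) := fun f => hi f
  let _ : Abelian (Idempotents.Karoubi (Mat_ 𝒟)) := Abelian.ofCoimageImageComparisonIsIso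
  let F : 𝒟 ⥤ Idempotents.Karoubi (Mat_ 𝒟) := Mat_.embedding 𝒟 ⋙ Idempotents.toKaroubi (Mat_ 𝒟)
  obtain ⟨g, hg⟩ := reg_of_split (fun f hf => hm f hf) (F.map f)
  refine ⟨F.preimage g, F.map_injective ?_⟩
  rw [F.map_comp, F.map_comp, F.map_preimage, hg]

end Pool.Agent.W494.MO
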